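import Pool.Agent.TH680.BSK.Law

/-!
# `NP` is not in `P/poly` over any field relative to almost every Boolean oracle

Machines over a field `K` in the sense of Blum, Shub and Smale with tests for equality: see
`Pool/Agent/TH680/BSS/Defs.lean`. A machine has finitely many arbitrary constants from `K`, and it can
ask whether a vector is a 0/1 string in one of two Boolean oracles `Q` and `A`. The class `P/poly`
over `K` (`InPpoly` in `Pool/Agent/TH680/BSK/Law.lean`) is given by machines that get, in addition to
the input, a vector over `K` as advice, which depends only on the size of the input.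

For every `Q` and almost every `A`, with the same `A` for **all** fields `K` of all characteristics,
`NP` over `K` is not contained in `P/poly` over `K`: there is a problem `L` over `K`, accepted with
`n` guesses (0/1 guesses suffice) in `O(n)` steps, such that every machine `M` over `K` is wrong for
some 0/1 input of size `8 i + 1`, for all large `i`, if it is restricted to `2 ^ i` steps, whatever
the (at most `2 ^ i`) elements of `K` in the advice are.

The proof. The `2 ^ (4 i)` instances of size `8 i + 1` are nearly independent. For fixed advice the
probability that all answers are right is at most `(1 - 1 / 1024) ^ (2 ^ (4 i) / (2 ^ i + 1))`. The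
answers depend only on the question which of the polynomials, with coefficients in the prime field,
that occur in the computations vanish at the vector of the constants and the advice. The zero
patterns of `s` polynomials of degree `d` in `n` variables, at points over all fields of a given
characteristic, number at most `(s d + 1) ^ n` (the polynomial method of Rónyai, Babai and
Ganapathy); this is at most `2 ^ (28 * 4 ^ i)` here. So the probabilities have a finite sum, for
each program and each characteristic.
-/

set_option autoImplicit false

namespace Pool.Agent.Results.MP_641cb6_lc.RandomOracle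

open MeasureTheory Pool.Agent.TH680.BSS Pool.Agent.TH680.BSK Pool.Agent.W900.IE

universe u

/-- The distribution of the random oracle: every string is in it with probability `1 / 2`,
independently. -/
noncomputable abbrev fair : Measure (List Bool → Bool) := indep (fun _ => half)

/-- For every oracle `Q` and almost every oracle `A` the following holds for all fields `K` at once,
relative to `Q` and `A`: there is a set `L` of vectors over `K` such that

(1) some machine `V` over `K` stops after at most `9 n + 6` steps on all inputs of size `n`, and
`x ∈ L` iff `V` accepts `(x, y)` for some vector `y` of the same size as `x`, iff it accepts `(x, y)`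
for some 0/1 vector `y` of the same size;

(2) for every machine `M` over `K` and for all large `i`: for every vector `a` of at most `2 ^ i`
elements of `K` (the advice) there is a 0/1 vector `w` of size `8 i + 1` such that `M` on `(w, a)`
does not decide within `2 ^ i` steps whether `w ∈ L`;

(3) `L` is in `NP` over `K`, but not in `P/poly` over `K`. -/
theorem result (Q : List Bool → Bool) : ∀ᵐ A ∂fair, ∀ (K : Type u) [Field K],
    ∃ L : Set (List K),
      (∃ V : Machine K, (∀ z : List K, ∃ b : Bool, V.answer Q A (9 * z.length + 6) z = some b) ∧
        (∀ x : List K, x ∈ L ↔ ∃ y : List K, y.length = x.length ∧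
          V.answer Q A (9 * (x ++ y).length + 6) (x ++ y) = some true) ∧
        ∀ x : List K, x ∈ L ↔ ∃ w : List Bool, w.length = x.length ∧
          V.answer Q A (9 * (x ++ w.map (bit K)).length + 6) (x ++ w.map (bit K)) = some true) ∧
      (∀ M : Machine K, ∀ᶠ i : ℕ in Filter.atTop, ∀ a : List K, a.length ≤ 2 ^ i →
        ∃ w : List Bool, w.length = 8 * i + 1 ∧
          ¬ ∃ b : Bool, M.answer Q A (2 ^ i) (w.map (bit K) ++ a) = some b ∧
            (b = true ↔ w.map (bit K) ∈ L)) ∧
      InNP Q A L ∧ ¬ InPpoly Q A L := by
  classical
  filter_upwards [ae_advice Q] with A hA
  intro K _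
  refine ⟨langK K A, ⟨verK K, fun z => ⟨_, verK_answer Q A z⟩, fun x => ?_, fun x => ?_⟩, hA K,
    langK_inNP Q A, ?_⟩
  · refine exists_congr fun y => and_congr_right fun _ => ?_
    rw [verK_answer]
    simp
  · constructor
    · rintro ⟨y, hy, h1⟩
      obtain ⟨w, rfl⟩ := boo_tail (gd_boo h1)
      refine ⟨w, by simpa using hy, ?_⟩
      rw [verK_answer]
      simpa using h1
    · rintro ⟨w, hw, h1⟩
      rw [verK_answer] at h1
      exact ⟨w.map (bit K), by simpa using hw, by simpa using h1⟩
  · rintro ⟨M, p, a, ha, hM⟩
    obtain ⟨n₀, hn₀⟩ := Pool.Agent.H620R2.Gauge.X9.exists_n0 (p.comp (8 * Polynomial.X + 1))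
    obtain ⟨i, hi, h1⟩ := ((Filter.eventually_ge_atTop n₀).and (hA K M)).exists
    have h4 := hn₀ i hi
    rw [Polynomial.eval_comp] at h4
    have h5 : p.eval (8 * i + 1) ≤ 2 ^ i := by simpa using h4
    obtain ⟨w, hw, h2⟩ := h1 (a (8 * i + 1)) ((ha _).trans h5)
    apply h2
    obtain ⟨b, h3, h6⟩ := hM (w.map (bit K))
    rw [List.length_map, hw] at h3
    refine ⟨b, ?_, h6⟩
    unfold Machine.answer at h3 ⊢
    exact run_mono _ _ _ _ _ _ _ _ h5 h3

end Pool.Agent.Results.MP_641cb6_lc.RandomOracle
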