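import Pool.Agent.TH680.BSR.AdvLaw

set_option autoImplicit false

/-!
# `NP` is not in `P/poly` over the reals relative to almost every Boolean oracle

Machines over `ℝ` in the sense of Blum, Shub and Smale with order tests: programs (`Instr`,
`Machine`) and the form of inputs and questions (`place`, `Reads`) are defined in
`Pool/Agent/TH680/BSS/Defs.lean`, the runs (`runR`) in `Pool/Agent/TH680/BSR/Sym.lean`, the classes
(`answerR`, `InNPR`) in `Pool/Agent/TH680/BSR/Cls.lean`, and the class `P/poly` over `ℝ` (`InPRpoly`)
in `Pool/Agent/TH680/BSR/AdvLaw.lean`. The nonuniform machines get a vector of real numbers as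
advice; so they can hold, for example, any infinite 0/1 sequence, and all answers to inputs from
a set of polynomially many inputs. The machines have to be wrong, for all large `i`, on an input of
size `8 i + 1`, whatever the (at most `2 ^ i`) real numbers in the advice are.

The proof. For fixed advice the `2 ^ (4 i)` instances of size `8 i + 1` are nearly independent, and
the probability that all answers are right is at most `exp (-2 ^ (3 i) / 1024)`, up to details. By
Warren's theorem there are only `2 ^ (28 * 4 ^ i)` behaviours, for all values of the constants and of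
the advice.
-/

namespace Pool.Agent.Results.MP_641cb6_lc.RandomOracleReals

open MeasureTheory Pool.Agent.TH680.BSS Pool.Agent.TH680.BSR Pool.Agent.W900.IE

/-- The distribution of the random oracle: every string is in it with probability `1 / 2`,
independently. -/
noncomputable abbrev fair : Measure (List Bool → Bool) := indep (fun _ => half)

/-- For every oracle `Q` and almost every oracle `A` there is a set `L` of real vectors such that,
relative to `Q` and `A`:

(1) some machine `V` over `ℝ` stops after at most `12 n + 9` steps on all inputs of size `n`, and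
`x ∈ L` iff `V` accepts `(x, y)` for some vector `y` of the same size as `x`, iff it accepts `(x, y)`
for some 0/1 vector `y` of the same size;

(2) for every machine `M` over `ℝ` and for all large `i`: for every vector `a` of at most `2 ^ i` real
numbers (the advice) there is a 0/1 vector `w` of size `8 i + 1` such that `M` on `(w, a)` does not
decide within `2 ^ i` steps whether `w ∈ L`;

(3) `L` is in `NP` over `ℝ`, but not in `P/poly` over `ℝ`. -/
theorem result (Q : List Bool → Bool) : ∀ᵐ A ∂fair, ∃ L : Set (List ℝ),
    (∃ V : Machine ℝ, (∀ z : List ℝ, ∃ b : Bool, answerR V Q A (12 * z.length + 9) z = some b) ∧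
      (∀ x : List ℝ, x ∈ L ↔ ∃ y : List ℝ, y.length = x.length ∧
        answerR V Q A (12 * (x ++ y).length + 9) (x ++ y) = some true) ∧
      ∀ x : List ℝ, x ∈ L ↔ ∃ w : List Bool, w.length = x.length ∧
        answerR V Q A (12 * (x ++ w.map (bit ℝ)).length + 9) (x ++ w.map (bit ℝ)) = some true) ∧
    (∀ M : Machine ℝ, ∀ᶠ i : ℕ in Filter.atTop, ∀ a : List ℝ, a.length ≤ 2 ^ i →
      ∃ w : List Bool, w.length = 8 * i + 1 ∧
        ¬ ∃ b : Bool, answerR M Q A (2 ^ i) (w.map (bit ℝ) ++ a) = some b ∧
          (b = true ↔ w.map (bit ℝ) ∈ L)) ∧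
    InNPR Q A L ∧ ¬ InPRpoly Q A L := by
  classical
  filter_upwards [ae_advice Q] with A hA
  refine ⟨langR A, ⟨verR, fun z => ⟨_, verR_answer Q A z⟩, fun x => ?_, fun x => ?_⟩, hA,
    langR_inNP Q A, ?_⟩
  · refine exists_congr fun y => and_congr_right fun _ => ?_
    rw [verR_answer]
    simp
  · constructor
    · rintro ⟨y, hy, h1⟩
      obtain ⟨w, rfl⟩ := boo_tail (gd_boo h1)
      refine ⟨w, by simpa using hy, ?_⟩
      rw [verR_answer]
      simpa using h1
    · rintro ⟨w, hw, h1⟩
      rw [verR_answer] at h1
      exact ⟨w.map (bit ℝ), by simpa using hw, by simpa using h1⟩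
  · rintro ⟨M, p, a, ha, hM⟩
    obtain ⟨n₀, hn₀⟩ := Pool.Agent.H620R2.Gauge.X9.exists_n0 (p.comp (8 * Polynomial.X + 1))
    obtain ⟨i, hi, h1⟩ := ((Filter.eventually_ge_atTop n₀).and (hA M)).exists
    have h4 := hn₀ i hi
    rw [Polynomial.eval_comp] at h4
    have h5 : p.eval (8 * i + 1) ≤ 2 ^ i := by simpa using h4
    obtain ⟨w, hw, h2⟩ := h1 (a (8 * i + 1)) ((ha _).trans h5)
    apply h2
    obtain ⟨b, h3, h6⟩ := hM (w.map (bit ℝ))
    rw [List.length_map, hw] at h3
    refine ⟨b, ?_, h6⟩
    unfold answerR at h3 ⊢
    exact runR_mono _ _ _ _ _ _ _ _ h5 h3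

end Pool.Agent.Results.MP_641cb6_lc.RandomOracleReals
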