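import Mathlib
import Pool.Agent.TH189.Kr23

/-!
# Real solvability cannot be decided by structured order tests

An instance is the vector `c` of all coefficients of `k` real polynomials of degree at most `d` in
`n` unknowns, and it has to be decided whether they have a common real zero.  For one polynomial of
degree at most `4` this problem is complete for `NP` over `ℝ` (Blum, Shub and Smale).  We consider
decision trees of any size and any depth, whose tests ask for the sign (`< 0`, `= 0` or `> 0`) of
real polynomials in the coefficients.  (A machine over `ℝ` which decides the problem gives such a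
tree for each format.)

We prove that no decision tree decides real solvability, whatever its size and depth, if all its
tests are *structured*, with parameters `m ≥ 1` and `w` such that `w (m ^ 2 + 2 m ^ 4) ≤ n`, for
every `k ≥ 1` if `d ≥ 2` is even (in particular for one polynomial of degree `4`), and for every
`k ≥ n + 1` and `d ≥ 1`.  For one polynomial of even degree (and `n ≥ 1`) such a tree even gives
wrong answers on a nonempty open set of polynomials.  Here a polynomial in the coefficients is
structured if it is zero or if it divides, over `ℂ`, a nonzero polynomial which is in one of the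
following three classes.

Let `Ω` be an algebraic closure of the field of rational functions in the coefficients over `ℂ`.  An
element of `Ω` is a *small root* if it is a root of a monic polynomial
`T ^ e + a_1 T ^ (e - 1) + ⋯ + a_e` with `e ≤ m` whose coefficients `a_j` are polynomials of degree
at most `w j`.

(1) The polynomials which are in `Ω` products of sums of small roots with complex coefficients; the
numbers of the factors and of the summands are arbitrary.  For instance all norms
`∏ (c_1 √q_1 ± c_2 √q_2 ± ⋯ ± c_r √q_r)` of sums of any number of square roots of polynomials of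
degree at most `2 w`, with `m = 2`.

(2) The determinants `det Y` of matrices of polynomials of degree at most `w`, of any size, with
values in a Lie algebra `𝔤` of matrices such that the simple ideals of `𝔤 / rad 𝔤` (whose number is
arbitrary) have dimension at most `m`.

(3) The determinants `det (Y_1 + ⋯ + Y_r)`, where `r` is arbitrary, of pairwise commuting matrices
of polynomials, of any size, each of which is annihilated by a monic polynomial as above.

The proof.  The systems `f_i = ∑_l y_l z_l ^ (i B) (1 + ∑_j z_l ^ ((d + 1) ^ j) x_j) ^ d` with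
`s ≤ n` positive real parameters `(y_l, z_l)` have a real solution in general.  In suitable
coordinates they are points of the `s`-th secant variety of a rational normal curve, and they are
dense in it in the Zariski topology.  By the theorems of `TH189` the tests do not vanish at a general
point of this kind for `s = w (m ^ 2 + 2 m ^ 4)`, so the tree gives the same answer in a
neighbourhood of the point.  But there are systems without solutions in every neighbourhood: if `d`
is even then `f_0 ≥ 0` everywhere, and `f_0 + ε` has no zero.  If `k = 1` there are also nonempty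
open sets of polynomials with zeros, and without zeros, in every neighbourhood.
-/

set_option autoImplicit false

namespace Pool.Agent.Results.MP_641cb6_lc.RealStructuredTests

open MvPolynomial Topology

attribute [local instance 100] LieRing.ofAssociativeRing

/-- The exponent vectors of the monomials of degree at most `d` in `n` unknowns. -/
abbrev Mono (n d : ℕ) : Type := {α : Fin n → Fin (d + 1) // ∑ j, (α j : ℕ) ≤ d}

/-- The names of the coefficients of `k` polynomials of degree at most `d` in `n` unknowns. -/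
abbrev Coeff (n k d : ℕ) : Type := Fin k × Mono n d

/-- The value at `z` of the `i`-th polynomial of the system with coefficients `c`. -/
noncomputable def value {n k d : ℕ} (c : Coeff n k d → ℝ) (i : Fin k) (z : Fin n → ℝ) : ℝ :=
  ∑ α : Mono n d, c (i, α) * ∏ j, z j ^ (α.1 j : ℕ)

/-- The system has a common zero in `ℝ ^ n`. -/
def Solvable {n k d : ℕ} (c : Coeff n k d → ℝ) : Prop :=
  ∃ z : Fin n → ℝ, ∀ i, value c i z = 0

/-- Decision trees whose tests ask for the sign of a polynomial in the coefficients. -/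
inductive Tree (Q : Type) : Type
  | answer (b : Bool) : Tree Q
  | test (g : MvPolynomial Q ℝ) (ifNegative ifZero ifPositive : Tree Q) : Tree Q

open Classical in
/-- The answer of a decision tree on an instance. -/
noncomputable def Tree.run {Q : Type} : Tree Q → (Q → ℝ) → Bool
  | .answer b, _ => b
  | .test g T₀ T₁ T₂, c =>
    if eval c g < 0 then T₀.run c else if eval c g = 0 then T₁.run c else T₂.run c

/-- All tests of the tree are on polynomials with the property `P`. -/
def Tree.Tests {Q : Type} (P : MvPolynomial Q ℝ → Prop) : Tree Q → Prop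
  | .answer _ => True
  | .test g T₀ T₁ T₂ => P g ∧ T₀.Tests P ∧ T₁.Tests P ∧ T₂.Tests P

/-- An algebraic closure of the field of rational functions over `ℂ`. -/
abbrev Om (Q : Type) : Type := AlgebraicClosure (FractionRing (MvPolynomial Q ℂ))

/-- `χ` is a monic polynomial of degree `e ≤ m` whose coefficient at `T ^ j` is a polynomial of
degree at most `w (e - j)`. -/
def Small {Q : Type} (m w : ℕ) (χ : Polynomial (MvPolynomial Q ℂ)) : Prop :=
  χ.Monic ∧ χ.natDegree ≤ m ∧ ∀ j, (χ.coeff j).totalDegree ≤ w * (χ.natDegree - j)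

/-- `u` is a root of such a polynomial. -/
def SmallRoot {Q : Type} (m w : ℕ) (u : Om Q) : Prop :=
  ∃ χ : Polynomial (MvPolynomial Q ℂ), Small m w χ ∧
    χ.eval₂ (algebraMap (MvPolynomial Q ℂ) (Om Q)) u = 0

/-- `g` is in `Ω` a product of finite sums `∑ c_i u_i` with complex numbers `c_i` and small
roots `u_i`. -/
def ProductOfSums {Q : Type} (m w : ℕ) (g : MvPolynomial Q ℂ) : Prop :=
  ∃ A : Multiset (Om Q), (∀ φ ∈ A, φ ∈ Submodule.span ℂ {u : Om Q | SmallRoot m w u}) ∧
    algebraMap (MvPolynomial Q ℂ) (Om Q) g = A.prod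

/-- `Y` is a matrix of polynomials of degree at most `w` with values in a Lie algebra `𝔤` of
complex matrices such that every minimal nonzero ideal of `𝔤 / rad 𝔤` has dimension at most `m`.
(The Lie algebra `𝔤 / rad 𝔤` is semisimple; its minimal nonzero ideals are its simple ideals.) -/
def LieValued {Q : Type} {M : ℕ} (m w : ℕ) (Y : Matrix (Fin M) (Fin M) (MvPolynomial Q ℂ)) :
    Prop :=
  (∀ i j, (Y i j).totalDegree ≤ w) ∧
  ∃ 𝔤 : LieSubalgebra ℂ (Matrix (Fin M) (Fin M) ℂ),
    (∀ I : LieIdeal ℂ (𝔤 ⧸ LieAlgebra.radical ℂ 𝔤), IsAtom I → Module.finrank ℂ I ≤ m) ∧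
    ∀ c : Q → ℂ, Y.map (eval c) ∈ 𝔤

/-- `Z` is a sum of pairwise commuting matrices of polynomials, each of which is annihilated by a
polynomial as above. -/
def CommutingSum {Q : Type} {M : ℕ} (m w : ℕ) (Z : Matrix (Fin M) (Fin M) (MvPolynomial Q ℂ)) :
    Prop :=
  ∃ (r : ℕ) (Y : Fin r → Matrix (Fin M) (Fin M) (MvPolynomial Q ℂ)),
    (∀ i j, Y i * Y j = Y j * Y i) ∧
    (∀ i, ∃ χ : Polynomial (MvPolynomial Q ℂ), Small m w χ ∧ Polynomial.aeval (Y i) χ = 0) ∧
    Z = ∑ i, Y i

/-- `g` is a product of sums of small roots, or the determinant of a matrix (of any size) with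
values in a Lie algebra with simple factors of dimension at most `m`, or the determinant of a sum of
commuting matrices (of any size) of small degree. -/
def Basic {Q : Type} (m w : ℕ) (g : MvPolynomial Q ℂ) : Prop :=
  ProductOfSums m w g ∨
  (∃ (M : ℕ) (Y : Matrix (Fin M) (Fin M) (MvPolynomial Q ℂ)), LieValued m w Y ∧ g = Y.det) ∨
  (∃ (M : ℕ) (Z : Matrix (Fin M) (Fin M) (MvPolynomial Q ℂ)), CommutingSum m w Z ∧ g = Z.det)

/-- The real polynomial `g` is zero or it divides, over `ℂ`, a nonzero polynomial of one of the three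
classes. -/
def Structured {Q : Type} (m w : ℕ) (g : MvPolynomial Q ℝ) : Prop :=
  g = 0 ∨ ∃ h : MvPolynomial Q ℂ, h ≠ 0 ∧ Basic m w h ∧ MvPolynomial.map (algebraMap ℝ ℂ) g ∣ h

open TH189.Kr in
/-- Structured polynomials are not killed by the generator. -/
theorem structured_notMem {Q : Type} {N : ℕ} (ψ : MvPolynomial Q ℂ →ₐ[ℂ] MvPolynomial (Fin N) ℂ)
    (hinj : Function.Injective ψ) (hd : ∀ p, (ψ p).totalDegree ≤ p.totalDegree)
    (a : Fin N → ℂ) (ha : Function.Injective a) (m w : ℕ) (hm : 1 ≤ m) (g : MvPolynomial Q ℝ)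
    (hg0 : g ≠ 0) (hg : Structured m w g) :
    ψ (cx g) ∉ H530R2.genI a (w * (m ^ 2 + 2 * m ^ 4)) := by
  obtain hg | ⟨h, h0, hb, hgh⟩ := hg
  · exact absurd hg hg0
  intro hmem
  have h1 : ψ h ∈ H530R2.genI a (w * (m ^ 2 + 2 * m ^ 4)) := by
    obtain ⟨q, rfl⟩ := hgh
    rw [map_mul]
    exact Ideal.mul_mem_right _ _ hmem
  revert h1
  obtain ⟨A, hA, hAh⟩ | ⟨M, Y, ⟨hw, 𝔤, hI, hY⟩, rfl⟩ | ⟨M, Z, ⟨r, Y, hc, hχ, rfl⟩, rfl⟩ := hb
  · refine sums_notMemψ ψ hinj hd a ha m w hm h h0 A ?_ hAh
    intro φ hφ
    refine Submodule.span_mono ?_ (hA φ hφ)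
    rintro u ⟨χ, ⟨h1, h2, h3⟩, h4⟩
    exact ⟨χ, h1, h2, h3, h4⟩
  · exact lie_notMemψ ψ hinj hd a ha 𝔤 m w hm hI Y hw hY h0
  · refine commuting_notMemψ ψ hinj hd a ha m w hm Y hc (fun i => ?_) h0
    obtain ⟨χ, ⟨h1, h2, h3⟩, h4⟩ := hχ i
    exact ⟨χ, h1, h2, h3, h4⟩

/-- A tree gives a locally constant answer where some polynomial is nonzero. -/
theorem tree_generic {Q : Type} (J : MvPolynomial Q ℝ → Prop) (hJ1 : ¬ J 1)
    (hJ : ∀ p q, J (p * q) → J p ∨ J q) (P : MvPolynomial Q ℝ → Prop)
    (hP : ∀ g, g ≠ 0 → P g → ¬ J g) (T : Tree Q) (hT : T.Tests P) :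
    ∃ G : MvPolynomial Q ℝ, ¬ J G ∧ ∀ c₀, eval c₀ G ≠ 0 → ∀ᶠ c in 𝓝 c₀, T.run c = T.run c₀ := by
  classical
  induction T with
  | answer b => exact ⟨1, hJ1, fun c _ => Filter.Eventually.of_forall fun _ => rfl⟩
  | test g T₀ T₁ T₂ h₀ h₁ h₂ =>
    obtain ⟨hg, hT₀, hT₁, hT₂⟩ := hT
    have hrun : ∀ c, (Tree.test g T₀ T₁ T₂).run c =
        if eval c g < 0 then T₀.run c else if eval c g = 0 then T₁.run c else T₂.run c :=
      fun c => rfl
    by_cases hg0 : g = 0
    · obtain ⟨G, hG, hb⟩ := h₁ hT₁
      refine ⟨G, hG, fun c₀ hc => (hb c₀ hc).mono fun c h => ?_⟩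
      rw [hrun, hrun, hg0, map_zero, map_zero, if_neg (lt_irrefl _), if_neg (lt_irrefl _),
        if_pos rfl, if_pos rfl, h]
    · obtain ⟨G₀, hG₀, hb₀⟩ := h₀ hT₀
      obtain ⟨G₂, hG₂, hb₂⟩ := h₂ hT₂
      refine ⟨g * (G₀ * G₂), fun h => ?_, fun c₀ hc => ?_⟩
      · rcases hJ _ _ h with h1 | h1
        · exact hP g hg0 hg h1
        · exact (hJ _ _ h1).elim hG₀ hG₂
      · rw [map_mul, map_mul] at hc
        have hcg := left_ne_zero_of_mul hc
        have hcont : Continuous fun c : Q → ℝ => eval c g := MvPolynomial.continuous_eval g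
        rcases lt_or_gt_of_ne hcg with h1 | h1
        · filter_upwards [hb₀ c₀ (left_ne_zero_of_mul (right_ne_zero_of_mul hc)),
            hcont.continuousAt.eventually_lt continuousAt_const h1] with c h2 h3
          rw [hrun, hrun, if_pos h3, if_pos h1, h2]
        · filter_upwards [hb₂ c₀ (right_ne_zero_of_mul (right_ne_zero_of_mul hc)),
            continuousAt_const.eventually_lt hcont.continuousAt h1] with c h2 h3
          rw [hrun, hrun, if_neg h3.le.not_gt, if_neg h3.ne', if_neg h1.le.not_gt,
            if_neg h1.ne', h2]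

/-- **Real solvability cannot be decided by structured order tests.**  Suppose that `m ≥ 1`, `d ≥ 1`
and `w (m ^ 2 + 2 m ^ 4) ≤ n`, and consider a decision tree (of any size and depth) with tests for
the signs of polynomials which are structured with the parameters `m` and `w`.

If `d` is even and `k ≥ 1`, or if `k ≥ n + 1`, then the tree does not decide whether `k` real
polynomials of degree at most `d` in `n` unknowns have a common real zero.

If `d` is even, `k = 1` and `n ≥ 1`, then the answer of the tree is wrong for all polynomials in some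
nonempty open set. -/
theorem result (n k d m w : ℕ) (hd : 1 ≤ d) (hm : 1 ≤ m) (hw : w * (m ^ 2 + 2 * m ^ 4) ≤ n)
    (T : Tree (Coeff n k d)) (hT : T.Tests (Structured m w)) :
    ((Even d ∧ 1 ≤ k) ∨ n + 1 ≤ k →
      ∃ c : Coeff n k d → ℝ, ¬ (T.run c = true ↔ Solvable c)) ∧
    (Even d → k = 1 → 1 ≤ n →
      ∃ U : Set (Coeff n k d → ℝ), IsOpen U ∧ U.Nonempty ∧
        ∀ c ∈ U, ¬ (T.run c = true ↔ Solvable c)) := by
  obtain ⟨a, ha⟩ : ∃ a : Fin (k * (d + 1) ^ n) → ℂ, Function.Injective a :=
    ⟨fun i => ((i : ℕ) : ℂ), fun i j h => Fin.ext (Nat.cast_injective h)⟩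
  let ψ : MvPolynomial (Coeff n k d) ℂ →ₐ[ℂ] MvPolynomial (Fin (k * (d + 1) ^ n)) ℂ :=
    TH189.Kr.psiE a (fun q : TH189.Kr.QHN n k d => (TH189.Kr.ordHN q : ℕ))
      (fun q => TH189.Kr.lamHN ℂ q.2)
  have hinj : Function.Injective ψ := TH189.Kr.psiE_injective a _ _ ha
    (Fin.val_injective.comp TH189.Kr.ordHN_injective) (fun q => (TH189.Kr.ordHN q).2)
    (fun q => TH189.Kr.lamHN_ne_zero q.2)
  have hdeg : ∀ p, (ψ p).totalDegree ≤ p.totalDegree := fun p =>
    TH189.Kr.psiE_totalDegree a _ _ p
  have hprime := H530R2.genI_prime a (w * (m ^ 2 + 2 * m ^ 4))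
  obtain ⟨G, hG, hloc⟩ := tree_generic
    (fun p => ψ (TH189.Kr.cx p) ∈ H530R2.genI a (w * (m ^ 2 + 2 * m ^ 4)))
    (fun h => hprime.ne_top ((Ideal.eq_top_iff_one _).2 (by
      rwa [TH189.Kr.cx, map_one, map_one] at h)))
    (fun p q h => hprime.mem_or_mem (by rwa [TH189.Kr.cx, map_mul, map_mul] at h))
    (Structured m w)
    (fun g hg0 hg => structured_notMem ψ hinj hdeg a ha m w hm g hg0 hg) T hT
  obtain ⟨r, hr, hsol, hne⟩ := TH189.Kr.real_generic hd hw a ha G hG
  refine ⟨fun hk => ?_, fun he hk1 hn => ?_⟩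
  · by_contra hdec
    push Not at hdec
    have htrue : T.run (TH189.Kr.secHN r : Coeff n k d → ℝ) = true := (hdec _).2 hsol
    have hnear : {c : Coeff n k d → ℝ | Solvable c} ∈
        𝓝 (TH189.Kr.secHN r : Coeff n k d → ℝ) := by
      filter_upwards [hloc _ hne] with c hc
      exact (hdec c).1 (hc.trans htrue)
    obtain ⟨c, hc, hns⟩ : ∃ c ∈ {c : Coeff n k d → ℝ | Solvable c}, ¬ TH189.Kr.SolvHN c := by
      rcases hk with ⟨he, hk⟩ | hk
      · exact TH189.Kr.unsolv_even he hk r hr hnear
      · exact TH189.Kr.unsolv_near (by omega) _ hnear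
    exact hns hc
  · subst hk1
    have h0 : ∀ z, 0 ≤ TH189.Kr.valHN (TH189.Kr.secHN r : Coeff n 1 d → ℝ) 0 z :=
      TH189.Kr.sec_nonneg he r hr
    cases hb : T.run (TH189.Kr.secHN r : Coeff n 1 d → ℝ) with
    | true =>
      obtain ⟨U, hU, hne', hUV, hUs⟩ := TH189.Kr.open_unsolv hn he _ h0 (hloc _ hne)
      refine ⟨U, hU, hne', fun c hc h => hUs c hc (h.1 ?_)⟩
      have h1 : T.run c = T.run (TH189.Kr.secHN r) := hUV hc
      rw [h1, hb]
    | false =>
      obtain ⟨U, hU, hne', hUV, hUs⟩ := TH189.Kr.open_solv hn he hd _ h0 hsol (hloc _ hne)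
      refine ⟨U, hU, hne', fun c hc h => ?_⟩
      have h1 : T.run c = T.run (TH189.Kr.secHN r) := hUV hc
      have h2 := h.2 (hUs c hc)
      rw [h1, hb] at h2
      exact Bool.false_ne_true h2

end Pool.Agent.Results.MP_641cb6_lc.RealStructuredTests
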