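import Pool.Agent.W966.Vg.Parts

/-!
# Polynomial maps which are verified nondeterministically are approximatively computable

Definitions: `LF`, `NTree`, `NTree.Acc`, `NTree.Accepts`, `NSComp`, `SLComp`, `InClosure` are in
`Pool.Agent.W966.Vg.Defs`. The theorem `graph_ns` of the starting library `Pool.Agent.W966.Vg`
(and contributors), which no result file stated before.
-/

set_option autoImplicit false

namespace Pool.Agent.Results.MP_641cb6_lc.VerifiedMaps

open MvPolynomial Pool.Agent.W966.Vg

/-- Let `K` be an algebraically closed field of characteristic `0` and `f = (f 1, …, f m)` a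
polynomial map of degree at most `d` in `n` variables over `K`. Let `t` be a nondeterministic
algebraic computation tree (guesses, tests for `0`, choices, linear combinations are free) with
inputs `x ∈ K ^ n` and `y ∈ K ^ m`. Suppose that the set of the points `x` with the following
property is dense: `t` can accept `(x, f x)` with at most `L` multiplications and divisions, and
there are at most `M` points `y` such that `t` can accept `(x, y)` with at most `L` multiplications
and divisions. (For example `t` verifies `y = f x`; then `M = 1`.) Then, for `R = L d (d - 1) / 2`,

(1) `f` lies in the Zariski closure of the set of the polynomial maps which can be computed with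
`R` multiplications, additions and multiplications by constants being free; for `d = 2` this is
`L`;

(2) `f` lies in the Zariski closure of the set of polynomial maps which can be computed with at
most `(R + m) (4 (n + R) + 1)` additions, subtractions and multiplications. -/
theorem result {K : Type} [Field K] [IsAlgClosed K] [CharZero K] (n m d L M : ℕ)
    (t : NTree K (Fin n ⊕ Fin m)) (f : Fin m → MvPolynomial (Fin n) K)
    (hd : ∀ v, (f v).totalDegree ≤ d)
    (H : ∀ p : MvPolynomial (Fin n) K, p ≠ 0 → ∃ x : Fin n → K, eval x p ≠ 0 ∧
      t.Accepts (Sum.elim x fun v => eval x (f v)) L ∧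
      ∃ c : Fin M → Fin m → K, ∀ y : Fin m → K, t.Accepts (Sum.elim x y) L → ∃ i, y = c i) :
    InClosure {g | NSComp K (Fin n) (Fin m) (L * (d * (d - 1) / 2)) g} f ∧
    ∀ R : ℕ, R = L * (d * (d - 1) / 2) →
      InClosure {g | SLComp K (Fin n) (Fin m) ((R + m) * (4 * (n + R) + 1)) g} f := by
  have h1 := graph_ns t f hd H
  refine ⟨h1, ?_⟩
  rintro R rfl
  have h3 := closure_total le_rfl h1
  rwa [Fintype.card_fin, Fintype.card_fin] at h3

end Pool.Agent.Results.MP_641cb6_lc.VerifiedMaps
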